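import Pool.Agent.KS6_49.RP.RelPoly

/-!
# The exact location of the reliability roots of paving matroids

Let `M` be a finite paving matroid of rank `r` on `m` elements. All reliability roots lie in the
closed unit disk. If `m ≥ r + 2`, then they lie in the open unit disk, with the exception of `1` and
possibly `-1`. If `m = r + 1`, then they are `r`-th or `(r+1)`-th roots of unity. If `m = r`, there
are no roots.
-/

namespace Pool.Agent.Results.MP_1ae31d_co.SharpLocation

open Finset Pool.Agent.KS6_49.RP

variable {α : Type*}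

/-- the number of independent sets of size `k` -/
noncomputable def numIndep (M : Matroid α) (k : ℕ) : ℕ := {I : Set α | M.Indep I ∧ I.ncard = k}.ncard

/-- the rank of a finite matroid -/
noncomputable def rank (M : Matroid α) : ℕ := M.eRank.toNat

/-- the reliability polynomial `∑_{k ≤ r} f_k q ^ k (1 - q) ^ (m - k)` -/
noncomputable def relPoly (M : Matroid α) : Polynomial ℂ :=
  ∑ k ∈ range (rank M + 1), Polynomial.C (numIndep M k : ℂ) * Polynomial.X ^ k *
    (1 - Polynomial.X) ^ (M.E.ncard - k)

/-- every circuit has at least `r` elements, `r` the rank -/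
def IsPaving (M : Matroid α) : Prop := ∀ C, M.IsCircuit C → rank M ≤ C.ncard

theorem indep_of_small {M : Matroid α} [M.Finite] (hM : IsPaving M) {A : Set α} (hA : A ⊆ M.E)
    (hc : A.ncard < rank M) : M.Indep A := by
  by_contra h
  obtain ⟨C, hCA, hC⟩ := Matroid.Dep.exists_isCircuit_subset (M := M) (X := A) ⟨h, hA⟩
  have h1 := hM C hC
  have h2 := Set.ncard_le_ncard hCA (M.ground_finite.subset hA)
  omega

open Classical in
/-- the nonbases -/
noncomputable def nb (M : Matroid α) [M.Finite] : Finset (Finset α) :=
  (powersetCard (rank M) M.ground_finite.toFinset).filter (fun A => ¬ M.Indep (A : Set α))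

open Classical in
theorem sys {M : Matroid α} [M.Finite] (hM : IsPaving M) :
    Sys M.ground_finite.toFinset (rank M) (nb M) where
  sub A hA := by
    rw [nb, mem_filter, mem_powersetCard] at hA
    exact hA.1.1
  card A hA := by
    rw [nb, mem_filter, mem_powersetCard] at hA
    exact hA.1.2
  ex A hA B hB hU C hC hCr := by
    rw [nb, mem_filter, mem_powersetCard] at hA hB ⊢
    obtain ⟨⟨hAE, hAr⟩, hAd⟩ := hA
    obtain ⟨⟨hBE, hBr⟩, hBd⟩ := hB
    refine ⟨⟨hC.trans (union_subset hAE hBE), hCr⟩, fun hCi => ?_⟩
    have hJc : (A ∩ B).card + 1 = rank M := by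
      have := card_union_add_card_inter A B
      omega
    have hJE : ((A ∩ B : Finset α) : Set α) ⊆ M.E := by
      intro x hx
      have h1 := hAE (mem_inter.1 (Finset.mem_coe.1 hx)).1
      exact M.ground_finite.mem_toFinset.1 h1
    have hJi : M.Indep ((A ∩ B : Finset α) : Set α) := by
      apply indep_of_small hM hJE
      rw [Set.ncard_coe_finset]
      omega
    obtain ⟨e, heC, hei⟩ := hJi.augment hCi (by
      rw [Set.encard_coe_eq_coe_finsetCard, Set.encard_coe_eq_coe_finsetCard]
      exact_mod_cast (by omega : (A ∩ B).card < C.card))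
    have he1 : e ∈ C := heC.1
    have he2 : e ∉ A ∩ B := fun h => heC.2 h
    have hcard : (insert e (A ∩ B)).card = rank M := by
      rw [card_insert_of_notMem he2, hJc]
    have hUe := hC he1
    rw [mem_union] at hUe
    rcases hUe with h | h
    · have h1 : insert e (A ∩ B) = A :=
        Finset.eq_of_subset_of_card_le (insert_subset h inter_subset_left) (by rw [hcard, hAr])
      rw [← coe_insert, h1] at hei
      exact hAd hei
    · have h1 : insert e (A ∩ B) = B :=
        Finset.eq_of_subset_of_card_le (insert_subset h inter_subset_right) (by rw [hcard, hBr])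
      rw [← coe_insert, h1] at hei
      exact hBd hei

open Classical in
theorem numIndep_eq (M : Matroid α) [M.Finite] (k : ℕ) :
    numIndep M k = ((powersetCard k M.ground_finite.toFinset).filter
      (fun A : Finset α => M.Indep (A : Set α))).card := by
  rw [numIndep, ← Set.ncard_coe_finset, ← Set.ncard_image_of_injective _ Finset.coe_injective]
  congr 1
  ext I
  constructor
  · rintro ⟨hI, hIk⟩
    have hIf : I.Finite := M.ground_finite.subset hI.subset_ground
    refine ⟨hIf.toFinset, ?_, hIf.coe_toFinset⟩
    rw [Finset.mem_coe, mem_filter, mem_powersetCard]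
    refine ⟨⟨?_, ?_⟩, by rwa [hIf.coe_toFinset]⟩
    · intro x hx
      rw [Set.Finite.mem_toFinset] at hx ⊢
      exact hI.subset_ground hx
    · rw [← hIk, Set.ncard_eq_toFinset_card I hIf]
  · rintro ⟨A, hA, rfl⟩
    rw [Finset.mem_coe, mem_filter, mem_powersetCard] at hA
    exact ⟨hA.2, by rw [Set.ncard_coe_finset]; exact hA.1.2⟩

theorem rank_spec (M : Matroid α) [M.Finite] : ((rank M : ℕ) : ℕ∞) = M.eRank := by
  rw [rank]
  apply ENat.natCast_toNat
  obtain ⟨B, hB⟩ := M.exists_isBase
  rw [← hB.encard_eq_eRank]
  exact (M.ground_finite.subset hB.subset_ground).encard_lt_top.ne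

/-! ### The unit circle -/

/-- partial binomial sums in powers of `w - 1` -/
noncomputable def V (w : ℂ) (m r : ℕ) : ℂ :=
  ∑ k ∈ range (r + 1), (m.choose k : ℂ) * (w - 1) ^ (r - k)

theorem V_succ (w : ℂ) (m r : ℕ) : V w (m + 1) (r + 1) = V w m (r + 1) + V w m r := by
  rw [V, V, V, sum_range_succ', sum_range_succ' _ (r + 1)]
  rw [Nat.choose_zero_right, Nat.choose_zero_right]
  have h : ∀ j ∈ range (r + 1), ((m + 1).choose (j + 1) : ℂ) *
      (w - 1) ^ (r + 1 - (j + 1)) = (m.choose (j + 1) : ℂ) *
      (w - 1) ^ (r + 1 - (j + 1)) + ((m.choose j : ℂ) * (w - 1) ^ (r - j)) := by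
    intro j _
    rw [Nat.choose_succ_succ, Nat.succ_sub_succ]
    push_cast
    ring
  rw [sum_congr rfl h, sum_add_distrib]
  ring

theorem V_zero (w : ℂ) (m : ℕ) : V w m 0 = 1 := by simp [V]

theorem V_self (w : ℂ) (r : ℕ) : V w r r = w ^ r := by
  have h := add_pow (1 : ℂ) (w - 1) r
  rw [add_sub_cancel] at h
  rw [h, V]
  exact sum_congr rfl fun k _ => by rw [one_pow]; ring

theorem V_one (w : ℂ) (r : ℕ) : (w - 1) * V w (r + 1) r = w ^ (r + 1) - 1 := by
  induction r with
  | zero => rw [V_zero]; ring
  | succ r ih => rw [V_succ, V_self, mul_add, ih]; ring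

theorem V_two (w : ℂ) (r : ℕ) :
    (w - 1) ^ 2 * V w (r + 2) r = w ^ (r + 2) - 1 - (r + 2) * (w - 1) := by
  induction r with
  | zero => rw [V_zero]; push_cast; ring
  | succ r ih =>
    have h1 := V_one w (r + 1)
    have h2 : V w (r + 1 + 2) (r + 1) = V w (r + 1 + 1) (r + 1) + V w (r + 2) r := V_succ w (r + 2) r
    rw [h2, mul_add, ih, sq, mul_assoc, h1]
    push_cast
    ring

theorem V_conj (w : ℂ) (m r : ℕ) :
    V ((starRingEnd ℂ) w) m r = (starRingEnd ℂ) (V w m r) := by
  rw [V, V, map_sum]
  refine sum_congr rfl fun k _ => ?_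
  rw [map_mul, map_pow, map_sub, map_one, Complex.conj_natCast]

theorem im_pow_le {w : ℂ} (hw : w.re ^ 2 + w.im ^ 2 = 1) (him : 0 < w.im) (k : ℕ) :
    |(w ^ (k + 1)).im| ≤ (k + 1) * w.im ∧ (1 ≤ k → |(w ^ (k + 1)).im| < (k + 1) * w.im) := by
  have hre : |w.re| < 1 := by
    rw [abs_lt]
    constructor <;> nlinarith
  have hnorm : ∀ j : ℕ, |(w ^ j).re| ≤ 1 := by
    intro j
    refine (Complex.abs_re_le_norm _).trans ?_
    rw [norm_pow]
    have : ‖w‖ = 1 := by
      rw [Complex.norm_def, Complex.normSq_apply, Real.sqrt_eq_one]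
      nlinarith
    rw [this, one_pow]
  induction k with
  | zero => simp [abs_of_pos him]
  | succ k ih =>
    have h1 : (w ^ (k + 1 + 1)).im = (w ^ (k + 1)).re * w.im + (w ^ (k + 1)).im * w.re := by
      rw [pow_succ, Complex.mul_im]
    have h2 : |(w ^ (k + 1 + 1)).im| < (((k + 1 : ℕ) : ℝ) + 1) * w.im := by
      rw [h1]
      have h3 : |(w ^ (k + 1)).re * w.im| ≤ w.im := by
        rw [abs_mul, abs_of_pos him]
        have := hnorm (k + 1)
        nlinarith
      have h4 : |(w ^ (k + 1)).im * w.re| < (k + 1) * w.im := by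
        rw [abs_mul]
        have h5 : 0 ≤ |(w ^ (k + 1)).im| := abs_nonneg _
        have h6 : 0 ≤ |w.re| := abs_nonneg _
        have h7 : (0 : ℝ) < (k + 1) * w.im := by positivity
        nlinarith [ih.1]
      have h5 := abs_add_le ((w ^ (k + 1)).re * w.im) ((w ^ (k + 1)).im * w.re)
      push_cast
      linarith
    exact ⟨h2.le, fun _ => h2⟩

theorem V_im {w : ℂ} (hw : w.re ^ 2 + w.im ^ 2 = 1) (him : 0 < w.im) :
    ∀ m r : ℕ, r + 2 ≤ m → 0 ≤ (V w m r).im ∧ (1 ≤ r → 0 < (V w m r).im) := by
  have hbase : ∀ r : ℕ, 0 ≤ (V w (r + 2) r).im ∧ (1 ≤ r → 0 < (V w (r + 2) r).im) := by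
    intro r
    have h1 := V_two w r
    have hwc : w * (starRingEnd ℂ) w = 1 := by
      rw [Complex.mul_conj, Complex.normSq_apply]
      have : w.re * w.re + w.im * w.im = 1 := by nlinarith
      rw [this]; simp
    -- multiply with `- conj w`
    have h2 : ((2 - 2 * w.re : ℝ) : ℂ) * V w (r + 2) r =
        (r + 2) - (r + 1) * (starRingEnd ℂ) w - w ^ (r + 1) := by
      have h3 : ((2 - 2 * w.re : ℝ) : ℂ) = -(starRingEnd ℂ) w * (w - 1) ^ 2 := by
        have h4 : w + (starRingEnd ℂ) w = ((2 * w.re : ℝ) : ℂ) := Complex.add_conj w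
        push_cast at h4 ⊢
        linear_combination h4 + (w - 2) * hwc
      rw [h3, mul_assoc, h1]
      have h5 : (starRingEnd ℂ) w * w ^ (r + 2) = w ^ (r + 1) := by
        rw [pow_succ w (r + 1)]
        linear_combination w ^ (r + 1) * hwc
      linear_combination -h5 + (r + 2) * hwc
    have h6 := congrArg Complex.im h2
    have h7 : ((r : ℂ) + 1) = (((r : ℝ) + 1 : ℝ) : ℂ) := by push_cast; rfl
    rw [Complex.im_ofReal_mul, h7, Complex.sub_im, Complex.sub_im, Complex.im_ofReal_mul,
      Complex.conj_im] at h6
    have h8 : ((r : ℂ) + 2).im = 0 := by simp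
    rw [h8] at h6
    have h9 := im_pow_le hw him r
    have hre : w.re < 1 := by nlinarith
    have h10 : 0 < 2 - 2 * w.re := by linarith
    have h11 := le_abs_self (w ^ (r + 1)).im
    constructor
    · by_contra hcon
      rw [not_le] at hcon
      have := mul_neg_of_pos_of_neg h10 hcon
      linarith [h9.1]
    · intro hr1
      have h12 := h9.2 hr1
      by_contra hcon
      rw [not_lt] at hcon
      have := mul_nonpos_of_nonneg_of_nonpos h10.le hcon
      linarith
  intro m
  induction m with
  | zero => intro r hr; omega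
  | succ m ih =>
    intro r hr
    rcases Nat.lt_or_ge m (r + 2) with h | h
    · have : m + 1 = r + 2 := by omega
      rw [this]
      exact hbase r
    · rcases Nat.eq_zero_or_pos r with h0 | h0
      · subst h0
        rw [V_zero]
        simp
      · obtain ⟨s, rfl⟩ : ∃ s, r = s + 1 := ⟨r - 1, by omega⟩
        rw [V_succ, Complex.add_im]
        have h1 := ih (s + 1) h
        have h2 := ih s (by omega)
        have h3 := h1.2 (by omega)
        exact ⟨by linarith [h2.1], fun _ => by linarith [h2.1]⟩

theorem V_of_U {z w : ℂ} (hzw : w * z = 1) (m r : ℕ) : w ^ r * U z m r = V w m r := by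
  rw [U, V, mul_sum]
  refine sum_congr rfl fun k hk => ?_
  rw [mem_range] at hk
  have h1 : w ^ r = w ^ k * w ^ (r - k) := by
    rw [← pow_add]
    congr 1
    omega
  have h2 : w - 1 = w * (1 - z) := by linear_combination hzw
  have h3 : w ^ k * z ^ k = 1 := by rw [← mul_pow, hzw, one_pow]
  rw [h1, h2, mul_pow]
  linear_combination (w ^ (r - k) * (m.choose k : ℂ) * (1 - z) ^ (r - k)) * h3

/-- on the unit circle, away from `1` and `-1`, there are no roots for nullity at least two -/
theorem circle {z : ℂ} (hz : ‖z‖ = 1) {m r : ℕ} (hmr : r + 2 ≤ m) (hr : 1 ≤ r) (l : ℕ)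
    (h : U z m r - (l : ℂ) * z ^ r = 0) : z.im = 0 := by
  have hn : z.re ^ 2 + z.im ^ 2 = 1 := by
    rw [Complex.norm_def, Complex.normSq_apply, Real.sqrt_eq_one] at hz
    nlinarith
  have hwz : (starRingEnd ℂ) z * z = 1 := by
    rw [mul_comm, Complex.mul_conj, Complex.normSq_apply]
    have : z.re * z.re + z.im * z.im = 1 := by nlinarith
    rw [this]; simp
  have hV : V ((starRingEnd ℂ) z) m r = (l : ℂ) := by
    rw [← V_of_U hwz]
    have h1 : U z m r = (l : ℂ) * z ^ r := by linear_combination h
    rw [h1]
    have h2 : (starRingEnd ℂ) z ^ r * z ^ r = 1 := by rw [← mul_pow, hwz, one_pow]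
    linear_combination (l : ℂ) * h2
  have hV' : V z m r = (l : ℂ) := by
    have h3 := V_conj ((starRingEnd ℂ) z) m r
    rw [Complex.conj_conj, hV, Complex.conj_natCast] at h3
    exact h3
  rcases lt_trichotomy z.im 0 with h0 | h0 | h0
  · exfalso
    have h4 := (V_im (w := (starRingEnd ℂ) z) (by rw [Complex.conj_re, Complex.conj_im]; nlinarith)
      (by rw [Complex.conj_im]; linarith) m r hmr).2 hr
    rw [hV, Complex.natCast_im] at h4
    exact lt_irrefl _ h4
  · exact h0
  · exfalso
    have h4 := (V_im (w := z) hn h0 m r hmr).2 hr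
    rw [hV', Complex.natCast_im] at h4
    exact lt_irrefl _ h4

/-- **Theorem.** The exact location of the reliability roots of a finite paving matroid. -/
theorem result {α : Type*} (M : Matroid α) [M.Finite] (hM : IsPaving M) (z : ℂ)
    (hz : (relPoly M).IsRoot z) :
    ‖z‖ ≤ 1 ∧
    (rank M + 2 ≤ M.E.ncard → ‖z‖ < 1 ∨ z = 1 ∨ z = -1) ∧
    (M.E.ncard = rank M + 1 → z ^ rank M = 1 ∨ z ^ (rank M + 1) = 1) ∧
    rank M + 1 ≤ M.E.ncard := by
  classical
  set E := M.ground_finite.toFinset with hE
  set r := rank M with hr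
  have hEc : M.E.ncard = E.card := Set.ncard_eq_toFinset_card _ _
  obtain ⟨B, hB⟩ := M.exists_isBase
  have hBf : B.Finite := M.ground_finite.subset hB.subset_ground
  have hBE : hBf.toFinset ⊆ E := by
    intro x hx
    rw [Set.Finite.mem_toFinset] at hx
    rw [hE, Set.Finite.mem_toFinset]
    exact hB.subset_ground hx
  have hBr : hBf.toFinset.card = r := by
    have h1 := hB.encard_eq_eRank
    rw [← rank_spec, hBf.encard_eq_coe_toFinset_card] at h1
    exact_mod_cast h1
  have hBN : hBf.toFinset ∉ nb M := by
    rw [nb, mem_filter]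
    rintro ⟨-, h⟩
    rw [hBf.coe_toFinset] at h
    exact h hB.indep
  have hrE : r ≤ E.card := by
    rw [← hBr]
    exact card_le_card hBE
  -- evaluate
  have heval : (relPoly M).eval z = ∑ k ∈ range (r + 1), (numIndep M k : ℂ) * z ^ k *
      (1 - z) ^ (E.card - k) := by
    rw [relPoly, Polynomial.eval_finsetSum]
    refine sum_congr rfl fun k _ => ?_
    rw [hEc]
    simp
  have hk : ∀ k, k < r → numIndep M k = E.card.choose k := by
    intro k hk
    rw [numIndep_eq, ← card_powersetCard, Finset.filter_true_of_mem]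
    intro A hA
    rw [mem_powersetCard] at hA
    apply indep_of_small hM
    · intro x hx
      exact M.ground_finite.mem_toFinset.1 (hA.1 (Finset.mem_coe.1 hx))
    · rw [Set.ncard_coe_finset, hA.2]
      exact hk
  have hkr : numIndep M r + (nb M).card = E.card.choose r := by
    rw [numIndep_eq, nb, ← card_powersetCard]
    exact Finset.card_filter_add_card_filter_not _
  have hpow : ∀ k ∈ range (r + 1), (1 - z) ^ (E.card - k) =
      (1 - z) ^ (E.card - r) * (1 - z) ^ (r - k) := by
    intro k hk
    rw [mem_range] at hk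
    rw [← pow_add]
    congr 1
    omega
  have hfac : (relPoly M).eval z = (1 - z) ^ (E.card - r) *
      (U z E.card r - ((nb M).card : ℂ) * z ^ r) := by
    rw [heval, U, sum_range_succ, sum_range_succ _ r, mul_sub, mul_add, mul_sum]
    have h1 : ∀ k ∈ range r, (numIndep M k : ℂ) * z ^ k * (1 - z) ^ (E.card - k) =
        (1 - z) ^ (E.card - r) * ((E.card.choose k : ℂ) * z ^ k * (1 - z) ^ (r - k)) := by
      intro k hk'
      rw [mem_range] at hk'
      rw [hk k hk', hpow k (mem_range.2 (by omega))]
      ring
    rw [sum_congr rfl h1]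
    have h2 : ((numIndep M r : ℕ) : ℂ) = (E.card.choose r : ℂ) - ((nb M).card : ℂ) := by
      rw [← hkr]
      push_cast
      ring
    rw [h2, Nat.sub_self, pow_zero]
    ring
  have hz0 : (relPoly M).eval z = 0 := hz
  rw [hfac] at hz0
  -- nullity zero
  have hnull : r + 1 ≤ E.card := by
    by_contra hcon
    have h1 : E.card = r := by omega
    have h2 : (nb M).card = 0 := by
      have h3 : insert hBf.toFinset (nb M) ⊆ powersetCard r E := by
        intro A hA
        rw [mem_insert] at hA
        rw [mem_powersetCard]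
        rcases hA with rfl | hA
        · exact ⟨hBE, hBr⟩
        · exact ⟨(sys hM).sub A hA, (sys hM).card A hA⟩
      have h4 := card_le_card h3
      rw [card_insert_of_notMem hBN, card_powersetCard, h1, Nat.choose_self] at h4
      omega
    rw [h1, h2, U_self, Nat.sub_self] at hz0
    simp at hz0
  have hone : z = 1 ∨ U z E.card r - ((nb M).card : ℂ) * z ^ r = 0 := by
    rcases mul_eq_zero.1 hz0 with h | h
    · left
      have h2 : 1 - z = 0 := by
        by_contra hne
        exact pow_ne_zero _ hne h
      exact (sub_eq_zero.1 h2).symm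
    · right
      exact h
  have hle : ‖z‖ ≤ 1 := by
    rcases hone with h | h
    · rw [h, norm_one]
    · by_contra hcon
      rw [not_le] at hcon
      exact main_ne_zero hcon E r (nb M) (sys hM) ⟨hBf.toFinset, hBE, hBr, hBN⟩ h
  rw [hEc]
  refine ⟨hle, fun hm => ?_, fun hm => ?_, hnull⟩
  · rcases hone with h | h
    · exact Or.inr (Or.inl h)
    · rcases hle.lt_or_eq with h1 | h1
      · exact Or.inl h1
      · right
        rcases Nat.eq_zero_or_pos r with h0 | h0
        · exfalso
          have h2 : (nb M).card = 0 := by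
            rw [Finset.card_eq_zero, nb, Finset.filter_eq_empty_iff]
            intro A hA hAi
            apply hAi
            rw [mem_powersetCard] at hA
            have h3 : A = ∅ := by
              rw [← Finset.card_eq_zero, hA.2]
              exact h0
            rw [h3, coe_empty]
            exact M.empty_indep
          rw [h2, h0] at h
          simp [U] at h
        · have h2 := circle h1 hm h0 _ h
          have h3 : z.re ^ 2 = 1 := by
            rw [Complex.norm_def, Complex.normSq_apply, Real.sqrt_eq_one, h2] at h1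
            nlinarith
          have h3' : (z.re - 1) * (z.re + 1) = 0 := by linear_combination h3
          rcases mul_eq_zero.1 h3' with h4 | h4
          · left
            exact Complex.ext (by rw [Complex.one_re]; linarith) (by rw [h2, Complex.one_im])
          · right
            exact Complex.ext (by rw [Complex.neg_re, Complex.one_re]; linarith) (by rw [h2]; simp)
  · rcases hone with h | h
    · left
      rw [h, one_pow]
    · have h5 : U z E.card r = ∑ i ∈ range (r + 1), z ^ i := by
        have h1 := U_eq z 0 r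
        rw [Nat.add_zero] at h1
        rw [hm, h1, Vp]
        refine sum_congr rfl fun i _ => ?_
        rw [zero_add, Nat.choose_self, Nat.cast_one, one_mul]
      rw [h5] at h
      by_cases hNC : NC E r (nb M)
      · right
        have hN := corank_one (sys hM) hNC hm
        rw [hN, Nat.cast_zero, zero_mul, sub_zero] at h
        have h6 := geom_sum_mul z (r + 1)
        rw [h, zero_mul] at h6
        linear_combination -h6
      · left
        have hN := coloop (sys hM) hNC ⟨hBf.toFinset, hBE, hBr, hBN⟩
        have h7 : E.card - 1 = r := by omega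
        rw [h7, Nat.choose_self] at hN
        rw [hN, sum_range_succ, Nat.cast_one, one_mul, add_sub_cancel_right] at h
        have h6 := geom_sum_mul z r
        rw [h, zero_mul] at h6
        linear_combination -h6

end Pool.Agent.Results.MP_1ae31d_co.SharpLocation
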